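import Pool.Agent.Helper50.Drop.CoDefs

/-!
# The metric `g₀ + R² dH ⊗ dH` and length estimates for `H¹` loops
-/

set_option autoImplicit false
set_option maxSynthPendingDepth 3

namespace Pool.Agent.Helper50.Drop

open Finset MeasureTheory
open scoped RealInnerProductSpace ContDiff
open Pool.Agent.Helper76.Freq (Q ins tr gr ev cobd cup Pr Adm gp Dep Nrm R3 E6 ver pt qf IsTop IsBot
  H4 exists_isTop exists_isBot)

theorem met_Hf_eq (v : E 4) : Hf v = -(v 4) ^ 3 + 3 * v 4 * v 3 ^ 2 + 3 * √3 * v 0 * v 1 * v 2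
    + 3 * √3 / 2 * v 3 * (v 0 ^ 2 - v 2 ^ 2)
    + 3 * v 4 * v 1 ^ 2 - 3 / 2 * v 4 * (v 0 ^ 2 + v 2 ^ 2) := by
  simp [Hf, H4, emb]

theorem met_contDiff_Hf : ContDiff ℝ ∞ Hf := by
  have h : Hf = fun v : E 4 => -(v 4) ^ 3 + 3 * v 4 * v 3 ^ 2 + 3 * √3 * v 0 * v 1 * v 2
    + 3 * √3 / 2 * v 3 * (v 0 ^ 2 - v 2 ^ 2)
    + 3 * v 4 * v 1 ^ 2 - 3 / 2 * v 4 * (v 0 ^ 2 + v 2 ^ 2) := funext met_Hf_eq
  rw [h]
  fun_prop

theorem met_contDiff_fderiv : ContDiff ℝ ∞ (fderiv ℝ Hf) :=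
  met_contDiff_Hf.fderiv_right (by simp)

/-- the inner product -/
noncomputable def metIn : E 4 →L[ℝ] E 4 →L[ℝ] ℝ := innerSL ℝ

theorem metIn_apply (u v : E 4) : metIn u v = ⟪u, v⟫ := rfl

/-- the metric `g₀ + R² dH ⊗ dH` -/
theorem exists_metric (R : ℝ) : ∃ g : SphereMetric 4, ∀ x u v,
    g.form x u v = ⟪u, v⟫ + R ^ 2 * (fderiv ℝ Hf x u * fderiv ℝ Hf x v) := by
  have h1 : ∀ x u v : E 4, (metIn + R ^ 2 • (fderiv ℝ Hf x).smulRight (fderiv ℝ Hf x) :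
      E 4 →L[ℝ] E 4 →L[ℝ] ℝ) u v = ⟪u, v⟫ + R ^ 2 * (fderiv ℝ Hf x u * fderiv ℝ Hf x v) := by
    intro x u v
    simp [metIn_apply]
  refine ⟨⟨fun x => metIn + R ^ 2 • (fderiv ℝ Hf x).smulRight (fderiv ℝ Hf x), ?_, ?_, ?_⟩, h1⟩
  · exact contDiff_const.add
      ((met_contDiff_fderiv.smulRight met_contDiff_fderiv).const_smul (R ^ 2))
  · intro x u v
    rw [h1, h1, real_inner_comm, mul_comm (fderiv ℝ Hf x u)]
  · intro x u _ _ hu
    rw [h1]
    have h2 : 0 < ⟪u, u⟫ := by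
      rw [real_inner_self_eq_norm_sq]
      positivity
    have h3 : 0 ≤ R ^ 2 * (fderiv ℝ Hf x u * fderiv ℝ Hf x u) :=
      mul_nonneg (sq_nonneg _) (mul_self_nonneg _)
    linarith

/-! ## velocity -/

/-- the velocity is integrable -/
theorem met_integrableOn (u : Vel 4) : IntegrableOn u (Set.Icc 0 1) :=
  (Lp.memLp u).integrable (by norm_num)

theorem met_intervalIntegrable (u : Vel 4) : IntervalIntegrable u volume 0 1 := by
  rw [intervalIntegrable_iff_integrableOn_Icc_of_le zero_le_one]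
  exact met_integrableOn u

theorem met_sub {u : Vel 4} {t t' : ℝ} (ht : t ∈ Set.Icc (0 : ℝ) 1) (ht' : t' ∈ Set.Icc (0 : ℝ) 1) :
    IntervalIntegrable u volume t t' := by
  refine (met_intervalIntegrable u).mono_set ?_
  rw [Set.uIcc_of_le (zero_le_one' ℝ)]
  exact Set.uIcc_subset_Icc ht ht'

theorem met_curve_sub {p : E 4 × Vel 4} {t t' : ℝ} (ht : t ∈ Set.Icc (0 : ℝ) 1)
    (ht' : t' ∈ Set.Icc (0 : ℝ) 1) : curve p t' - curve p t = ∫ s in t..t', p.2 s := by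
  have h0 : (0 : ℝ) ∈ Set.Icc (0 : ℝ) 1 := by simp
  rw [curve, curve, add_sub_add_left_eq_sub]
  exact intervalIntegral.integral_interval_sub_left (met_sub h0 ht') (met_sub h0 ht)

theorem met_continuousOn (p : E 4 × Vel 4) : ContinuousOn (curve p) (Set.Icc 0 1) := by
  have h := intervalIntegral.continuousOn_primitive_interval
    (f := p.2) (μ := volume) (a := 0) (b := 1)
    (by rw [Set.uIcc_of_le (zero_le_one' ℝ)]; exact met_integrableOn p.2)
  rw [Set.uIcc_of_le (zero_le_one' ℝ)] at h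
  exact continuousOn_const.add h

/-- the integrand of the length -/
noncomputable def metF (g : SphereMetric 4) (γ : LoopSpace 4) (t : ℝ) : ℝ :=
  Real.sqrt (g.form (curve γ.1 t) (γ.1.2 t) (γ.1.2 t))

theorem length_eq (g : SphereMetric 4) (γ : LoopSpace 4) : length g γ = ∫ t in (0 : ℝ)..1, metF g γ t :=
  rfl

theorem metF_nonneg (g : SphereMetric 4) (γ : LoopSpace 4) (t : ℝ) : 0 ≤ metF g γ t :=
  Real.sqrt_nonneg _

theorem metF_eq {g : SphereMetric 4} {R : ℝ} (hg : ∀ x u v,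
    g.form x u v = ⟪u, v⟫ + R ^ 2 * (fderiv ℝ Hf x u * fderiv ℝ Hf x v)) (γ : LoopSpace 4)
    (t : ℝ) : metF g γ t =
      Real.sqrt (‖γ.1.2 t‖ ^ 2 + R ^ 2 * (fderiv ℝ Hf (curve γ.1 t) (γ.1.2 t)) ^ 2) := by
  rw [metF, hg, real_inner_self_eq_norm_sq, ← sq]

theorem le_metF {g : SphereMetric 4} {R : ℝ} (hg : ∀ x u v,
    g.form x u v = ⟪u, v⟫ + R ^ 2 * (fderiv ℝ Hf x u * fderiv ℝ Hf x v)) (γ : LoopSpace 4)
    (t : ℝ) : ‖γ.1.2 t‖ ≤ metF g γ t := by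
  rw [metF_eq hg]
  refine Real.le_sqrt_of_sq_le ?_
  have : 0 ≤ R ^ 2 * (fderiv ℝ Hf (curve γ.1 t) (γ.1.2 t)) ^ 2 := by positivity
  linarith

theorem le_metF' {g : SphereMetric 4} {R : ℝ} (hg : ∀ x u v,
    g.form x u v = ⟪u, v⟫ + R ^ 2 * (fderiv ℝ Hf x u * fderiv ℝ Hf x v)) (γ : LoopSpace 4)
    (t : ℝ) : R * |fderiv ℝ Hf (curve γ.1 t) (γ.1.2 t)| ≤ metF g γ t := by
  rw [metF_eq hg]
  refine Real.le_sqrt_of_sq_le ?_
  rw [mul_pow, sq_abs]
  have : 0 ≤ ‖γ.1.2 t‖ ^ 2 := by positivity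
  linarith

theorem met_deriv_meas (γ : LoopSpace 4) : AEStronglyMeasurable
    (fun t => fderiv ℝ Hf (curve γ.1 t) (γ.1.2 t)) (volume.restrict (Set.Icc (0 : ℝ) 1)) := by
  have h1 : AEStronglyMeasurable (fun t => fderiv ℝ Hf (curve γ.1 t))
      (volume.restrict (Set.Icc (0 : ℝ) 1)) :=
    (met_contDiff_fderiv.continuous.comp_continuousOn
      (met_continuousOn γ.1)).aestronglyMeasurable measurableSet_Icc
  exact (ContinuousLinearMap.id ℝ (E 4 →L[ℝ] ℝ)).aestronglyMeasurable_comp₂ h1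
    (met_integrableOn γ.1.2).aestronglyMeasurable

theorem metF_meas {g : SphereMetric 4} {R : ℝ} (hg : ∀ x u v,
    g.form x u v = ⟪u, v⟫ + R ^ 2 * (fderiv ℝ Hf x u * fderiv ℝ Hf x v)) (γ : LoopSpace 4) :
    AEStronglyMeasurable (metF g γ) (volume.restrict (Set.Icc (0 : ℝ) 1)) := by
  have h : metF g γ = fun t =>
      Real.sqrt (‖γ.1.2 t‖ ^ 2 + R ^ 2 * (fderiv ℝ Hf (curve γ.1 t) (γ.1.2 t)) ^ 2) :=
    funext (metF_eq hg γ)
  rw [h]
  refine Real.continuous_sqrt.comp_aestronglyMeasurable ?_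
  exact ((met_integrableOn γ.1.2).aestronglyMeasurable.norm.pow 2).add
    (((met_deriv_meas γ).pow 2).const_mul _)

theorem met_bound (γ : LoopSpace 4) : ∃ K : ℝ, 0 ≤ K ∧ ∀ t ∈ Set.Icc (0 : ℝ) 1,
    ‖fderiv ℝ Hf (curve γ.1 t)‖ ≤ K := by
  have hc : IsCompact (Metric.sphere (0 : E 4) 1) := isCompact_sphere 0 1
  obtain ⟨K, hK⟩ := hc.exists_bound_of_continuousOn
    (met_contDiff_fderiv.continuous.continuousOn (s := Metric.sphere (0 : E 4) 1))
  refine ⟨max K 0, le_max_right _ _, fun t ht => (hK _ ?_).trans (le_max_left _ _)⟩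
  simpa using γ.2.1 t ht

theorem metF_integrable {g : SphereMetric 4} {R : ℝ} (hg : ∀ x u v,
    g.form x u v = ⟪u, v⟫ + R ^ 2 * (fderiv ℝ Hf x u * fderiv ℝ Hf x v)) (γ : LoopSpace 4) :
    IntegrableOn (metF g γ) (Set.Icc (0 : ℝ) 1) := by
  obtain ⟨K, hK0, hK⟩ := met_bound γ
  refine Integrable.mono' (((met_integrableOn γ.1.2).norm).const_mul (Real.sqrt (1 + R ^ 2 * K ^ 2)))
    (metF_meas hg γ) ?_
  refine (ae_restrict_iff' measurableSet_Icc).2 (Filter.Eventually.of_forall fun t ht => ?_)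
  rw [Real.norm_of_nonneg (metF_nonneg g γ t), metF_eq hg]
  refine Real.sqrt_le_iff.2 ⟨by positivity, ?_⟩
  rw [mul_pow, Real.sq_sqrt (by positivity)]
  have h1 : |fderiv ℝ Hf (curve γ.1 t) (γ.1.2 t)| ≤ K * ‖γ.1.2 t‖ :=
    (ContinuousLinearMap.le_opNorm _ _).trans (mul_le_mul_of_nonneg_right (hK t ht) (norm_nonneg _))
  have h2 : (fderiv ℝ Hf (curve γ.1 t) (γ.1.2 t)) ^ 2 ≤ (K * ‖γ.1.2 t‖) ^ 2 := by
    rw [← sq_abs]
    exact pow_le_pow_left₀ (abs_nonneg _) h1 2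
  have h3 : R ^ 2 * (fderiv ℝ Hf (curve γ.1 t) (γ.1.2 t)) ^ 2 ≤ R ^ 2 * (K * ‖γ.1.2 t‖) ^ 2 :=
    mul_le_mul_of_nonneg_left h2 (sq_nonneg _)
  nlinarith

theorem metF_ii {g : SphereMetric 4} {R : ℝ} (hg : ∀ x u v,
    g.form x u v = ⟪u, v⟫ + R ^ 2 * (fderiv ℝ Hf x u * fderiv ℝ Hf x v)) (γ : LoopSpace 4)
    {t t' : ℝ} (ht : t ∈ Set.Icc (0 : ℝ) 1) (ht' : t' ∈ Set.Icc (0 : ℝ) 1) :
    IntervalIntegrable (metF g γ) volume t t' := by
  have h : IntervalIntegrable (metF g γ) volume 0 1 := by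
    rw [intervalIntegrable_iff_integrableOn_Icc_of_le zero_le_one]
    exact metF_integrable hg γ
  refine h.mono_set ?_
  rw [Set.uIcc_of_le (zero_le_one' ℝ)]
  exact Set.uIcc_subset_Icc ht ht'

theorem met_le_length {g : SphereMetric 4} {R : ℝ} (hg : ∀ x u v,
    g.form x u v = ⟪u, v⟫ + R ^ 2 * (fderiv ℝ Hf x u * fderiv ℝ Hf x v)) (γ : LoopSpace 4)
    {t t' : ℝ} (ht : t ∈ Set.Icc (0 : ℝ) 1) (ht' : t' ∈ Set.Icc (0 : ℝ) 1) (htt : t ≤ t') :
    ∫ s in t..t', metF g γ s ≤ length g γ := by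
  rw [length_eq]
  have h0 : (0 : ℝ) ∈ Set.Icc (0 : ℝ) 1 := by simp
  have h1 : (1 : ℝ) ∈ Set.Icc (0 : ℝ) 1 := by simp
  exact intervalIntegral.integral_mono_interval ht.1 htt ht'.2
    (Filter.Eventually.of_forall fun s => metF_nonneg g γ s) (metF_ii hg γ h0 h1)

theorem met_dist_aux {g : SphereMetric 4} {R : ℝ} (hg : ∀ x u v,
    g.form x u v = ⟪u, v⟫ + R ^ 2 * (fderiv ℝ Hf x u * fderiv ℝ Hf x v)) (γ : LoopSpace 4)
    {t t' : ℝ} (ht : t ∈ Set.Icc (0 : ℝ) 1) (ht' : t' ∈ Set.Icc (0 : ℝ) 1) (htt : t ≤ t') :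
    ‖curve γ.1 t' - curve γ.1 t‖ ≤ length g γ := by
  rw [met_curve_sub ht ht']
  refine (intervalIntegral.norm_integral_le_integral_norm htt).trans
    (le_trans ?_ (met_le_length hg γ ht ht' htt))
  exact intervalIntegral.integral_mono_on htt (met_sub ht ht').norm (metF_ii hg γ ht ht')
    fun s _ => le_metF hg γ s

theorem length_dist {g : SphereMetric 4} {R : ℝ} (hg : ∀ x u v,
    g.form x u v = ⟪u, v⟫ + R ^ 2 * (fderiv ℝ Hf x u * fderiv ℝ Hf x v)) (γ : LoopSpace 4)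
    (t t' : unitInterval) : ‖curve γ.1 t - curve γ.1 t'‖ ≤ length g γ := by
  rcases le_total (t : ℝ) t' with h | h
  · rw [norm_sub_rev]
    exact met_dist_aux hg γ t.2 t'.2 h
  · exact met_dist_aux hg γ t'.2 t.2 h

/-! ## the function `Hf` along the curve -/

theorem met_ac_congr {f g : ℝ → ℝ} {a b : ℝ} (hf : AbsolutelyContinuousOnInterval f a b)
    (h : ∀ x ∈ Set.uIcc a b, g x = f x) : AbsolutelyContinuousOnInterval g a b := by
  rw [absolutelyContinuousOnInterval_iff] at *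
  intro ε hε
  obtain ⟨δ, hδ, h2⟩ := hf ε hε
  refine ⟨δ, hδ, fun E hE hs => ?_⟩
  have h3 := h2 E hE hs
  rw [Finset.sum_congr rfl fun i hi => by
    rw [h _ (hE.1 i hi).1, h _ (hE.1 i hi).2]]
  exact h3

theorem met_ac_coord (p : E 4 × Vel 4) (i : Fin 5) :
    AbsolutelyContinuousOnInterval (fun t => curve p t i) 0 1 := by
  have h1 : IntervalIntegrable (fun s => p.2 s i) volume 0 1 := by
    rw [intervalIntegrable_iff_integrableOn_Icc_of_le zero_le_one]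
    exact (EuclideanSpace.proj (𝕜 := ℝ) i : E 4 →L[ℝ] ℝ).integrable_comp (met_integrableOn p.2)
  have h2 := h1.absolutelyContinuousOnInterval_intervalIntegral (c := 0) (by simp)
  have h3 : AbsolutelyContinuousOnInterval (fun _ : ℝ => p.1 i) 0 1 :=
    (LipschitzWith.const (p.1 i)).lipschitzOnWith.absolutelyContinuousOnInterval
  refine met_ac_congr (h3.fun_add h2) fun t ht => ?_
  rw [Set.uIcc_of_le (zero_le_one' ℝ)] at ht
  have h4 := (EuclideanSpace.proj (𝕜 := ℝ) i : E 4 →L[ℝ] ℝ).intervalIntegral_comp_comm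
    (met_sub (u := p.2) (t := 0) (t' := t) (by simp) ht)
  have h5 : ∫ v in (0 : ℝ)..t, p.2 v i = (∫ s in (0 : ℝ)..t, p.2 s) i := h4
  rw [h5]
  rfl

theorem met_ac (p : E 4 × Vel 4) :
    AbsolutelyContinuousOnInterval (fun t => Hf (curve p t)) 0 1 := by
  have c := met_ac_coord p
  have h : (fun t => Hf (curve p t)) = fun t => (-1) * (curve p t 4 * (curve p t 4 * curve p t 4))
    + 3 * (curve p t 4 * (curve p t 3 * curve p t 3))
    + (3 * √3) * (curve p t 0 * (curve p t 1 * curve p t 2))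
    + (3 * √3 / 2) * (curve p t 3 * (curve p t 0 * curve p t 0 - curve p t 2 * curve p t 2))
    + 3 * (curve p t 4 * (curve p t 1 * curve p t 1))
    - (3 / 2) * (curve p t 4 * (curve p t 0 * curve p t 0 + curve p t 2 * curve p t 2)) := by
    funext t
    rw [met_Hf_eq]
    ring
  rw [h]
  refine ((((((c 4).fun_mul ((c 4).fun_mul (c 4))).const_mul (-1)).fun_add
    (((c 4).fun_mul ((c 3).fun_mul (c 3))).const_mul 3)).fun_add
    (((c 0).fun_mul ((c 1).fun_mul (c 2))).const_mul (3 * √3))).fun_add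
    (((c 3).fun_mul (((c 0).fun_mul (c 0)).fun_sub ((c 2).fun_mul (c 2)))).const_mul (3 * √3 / 2))
    |>.fun_add (((c 4).fun_mul ((c 1).fun_mul (c 1))).const_mul 3)).fun_sub
    (((c 4).fun_mul (((c 0).fun_mul (c 0)).fun_add ((c 2).fun_mul (c 2)))).const_mul (3 / 2))

theorem met_hasDerivAt (p : E 4 × Vel 4) : ∀ᵐ t, t ∈ Set.Icc (0 : ℝ) 1 →
    HasDerivAt (fun t => Hf (curve p t)) (fderiv ℝ Hf (curve p t) (p.2 t)) t := by
  have h := (met_intervalIntegrable p.2).ae_hasDerivAt_integral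
  filter_upwards [h] with t ht hm
  rw [Set.uIcc_of_le (zero_le_one' ℝ)] at ht
  have h1 : HasDerivAt (curve p) (p.2 t) t := (ht hm 0 (by simp)).const_add p.1
  exact (met_contDiff_Hf.differentiable (by simp) (curve p t)).hasFDerivAt.comp_hasDerivAt t h1

theorem met_cross_aux {g : SphereMetric 4} {R : ℝ} (hR : 0 ≤ R) (hg : ∀ x u v,
    g.form x u v = ⟪u, v⟫ + R ^ 2 * (fderiv ℝ Hf x u * fderiv ℝ Hf x v)) (γ : LoopSpace 4)
    {t t' : ℝ} (ht : t ∈ Set.Icc (0 : ℝ) 1) (ht' : t' ∈ Set.Icc (0 : ℝ) 1) (htt : t ≤ t') :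
    R * |Hf (curve γ.1 t') - Hf (curve γ.1 t)| ≤ length g γ := by
  have hac : AbsolutelyContinuousOnInterval (fun t => Hf (curve γ.1 t)) t t' :=
    (met_ac γ.1).mono (by
      rw [Set.uIcc_of_le (zero_le_one' ℝ)]
      exact Set.uIcc_subset_Icc ht ht')
  rw [← hac.integral_deriv_eq_sub]
  refine le_trans ?_ (met_le_length hg γ ht ht' htt)
  refine (mul_le_mul_of_nonneg_left (intervalIntegral.abs_integral_le_integral_abs htt) hR).trans ?_
  rw [← intervalIntegral.integral_const_mul]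
  refine intervalIntegral.integral_mono_ae_restrict htt
    (hac.intervalIntegrable_deriv.abs.const_mul R) (metF_ii hg γ ht ht') ?_
  refine (ae_restrict_iff' measurableSet_Icc).2 ?_
  filter_upwards [met_hasDerivAt γ.1] with s hs hm
  rw [(hs ⟨ht.1.trans hm.1, hm.2.trans ht'.2⟩).deriv]
  exact le_metF' hg γ s

theorem length_cross {g : SphereMetric 4} {R : ℝ} (hR : 0 ≤ R) (hg : ∀ x u v,
    g.form x u v = ⟪u, v⟫ + R ^ 2 * (fderiv ℝ Hf x u * fderiv ℝ Hf x v)) (γ : LoopSpace 4)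
    (t t' : unitInterval) : R * |Hf (curve γ.1 t) - Hf (curve γ.1 t')| ≤ length g γ := by
  rcases le_total (t : ℝ) t' with h | h
  · rw [abs_sub_comm]
    exact met_cross_aux hR hg γ t.2 t'.2 h
  · exact met_cross_aux hR hg γ t'.2 t.2 h

end Pool.Agent.Helper50.Drop
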